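import Pool.Agent.MTR.ZFI
import Pool.Agent.MTC.B2b.B0
import Pool.Agent.MTC.B2b.B1
import Pool.Agent.MTC.B2b.B2
import Pool.Agent.MTC.B2b.B3
import Pool.Agent.MTC.B2b.B4
import Pool.Agent.MTC.B2b.B5
import Pool.Agent.MTC.B2b.B6
import Pool.Agent.MTC.B2b.B7
import Pool.Agent.MTC.B2b.S
set_option autoImplicit false
set_option maxRecDepth 100000
open MeasureTheory Set Metric Pool.Agent.MEIS Pool.Agent.MSQ Pool.Agent.MGE Pool.Agent.MGF Pool.Agent.PKD Pool.Agent.MTR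
namespace Pool.Agent.MTC.B2b
theorem ev : (evenL F.f0 && evenL F.f1 && oddL F.f2 && evenL F.f3 && evenL F.f4 && evenL F.f5 && oddL F.f6) = true := by decide +kernel
/-- boxes -/
def L0 : List Bn := [⟨1, 2, 0, 1, 8⟩, ⟨1, 2, 3, 4, 8⟩, ⟨1, 2, 1, 2, 8⟩, ⟨1, 2, 2, 3, 8⟩, ⟨1, 2, 5, 6, 8⟩, ⟨1, 2, 4, 5, 8⟩, ⟨1, 2, 6, 7, 8⟩, ⟨1, 2, 7, 8, 8⟩, ⟨2, 3, 0, 1, 8⟩, ⟨2, 3, 1, 2, 8⟩, ⟨2, 3, 3, 4, 8⟩, ⟨2, 3, 2, 3, 8⟩, ⟨2, 3, 4, 5, 8⟩, ⟨2, 3, 7, 8, 8⟩, ⟨2, 3, 5, 6, 8⟩, ⟨2, 3, 6, 7, 8⟩, ⟨3, 4, 0, 1, 8⟩, ⟨3, 4, 2, 3, 8⟩, ⟨3, 4, 3, 4, 8⟩, ⟨3, 4, 1, 2, 8⟩]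
theorem hL0 : ∀ b ∈ L0, BoxOK 715 10000 81 1000 g false 103180 false b := by
  simp only [L0, List.forall_mem_cons, List.not_mem_nil, false_imp_iff, implies_true, and_true]
  exact ⟨⟨b0, _, rfl, rc8, h0⟩,
    ⟨b1, _, rfl, rc8, h1⟩,
    ⟨b2, _, rfl, rc8, h2⟩,
    ⟨b3, _, rfl, rc8, h3⟩,
    ⟨b4, _, rfl, rc8, h4⟩,
    ⟨b5, _, rfl, rc8, h5⟩,
    ⟨b6, _, rfl, rc8, h6⟩,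
    ⟨b7, _, rfl, rc8, h7⟩,
    ⟨b8, _, rfl, rc8, h8⟩,
    ⟨b9, _, rfl, rc8, h9⟩,
    ⟨b10, _, rfl, rc8, h10⟩,
    ⟨b11, _, rfl, rc8, h11⟩,
    ⟨b12, _, rfl, rc8, h12⟩,
    ⟨b13, _, rfl, rc8, h13⟩,
    ⟨b14, _, rfl, rc8, h14⟩,
    ⟨b15, _, rfl, rc8, h15⟩,
    ⟨b16, _, rfl, rc8, h16⟩,
    ⟨b17, _, rfl, rc8, h17⟩,
    ⟨b18, _, rfl, rc8, h18⟩,
    ⟨b19, _, rfl, rc8, h19⟩⟩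
/-- boxes -/
def L1 : List Bn := [⟨3, 4, 5, 6, 8⟩, ⟨3, 4, 4, 5, 8⟩, ⟨3, 4, 6, 7, 8⟩, ⟨3, 4, 7, 8, 8⟩, ⟨4, 5, 3, 4, 8⟩, ⟨4, 5, 2, 3, 8⟩, ⟨4, 5, 1, 2, 8⟩, ⟨4, 5, 4, 5, 8⟩, ⟨4, 5, 6, 7, 8⟩, ⟨4, 5, 5, 6, 8⟩, ⟨4, 5, 7, 8, 8⟩, ⟨5, 6, 2, 3, 8⟩, ⟨5, 6, 3, 4, 8⟩, ⟨5, 6, 4, 5, 8⟩, ⟨5, 6, 5, 6, 8⟩, ⟨5, 6, 6, 7, 8⟩, ⟨5, 6, 7, 8, 8⟩, ⟨6, 7, 2, 3, 8⟩, ⟨6, 7, 3, 4, 8⟩, ⟨6, 7, 4, 5, 8⟩]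
theorem hL1 : ∀ b ∈ L1, BoxOK 715 10000 81 1000 g false 103180 false b := by
  simp only [L1, List.forall_mem_cons, List.not_mem_nil, false_imp_iff, implies_true, and_true]
  exact ⟨⟨b20, _, rfl, rc8, h20⟩,
    ⟨b21, _, rfl, rc8, h21⟩,
    ⟨b22, _, rfl, rc8, h22⟩,
    ⟨b23, _, rfl, rc8, h23⟩,
    ⟨b24, _, rfl, rc8, h24⟩,
    ⟨b25, _, rfl, rc8, h25⟩,
    ⟨b26, _, rfl, rc8, h26⟩,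
    ⟨b27, _, rfl, rc8, h27⟩,
    ⟨b28, _, rfl, rc8, h28⟩,
    ⟨b29, _, rfl, rc8, h29⟩,
    ⟨b30, _, rfl, rc8, h30⟩,
    ⟨b31, _, rfl, rc8, h31⟩,
    ⟨b32, _, rfl, rc8, h32⟩,
    ⟨b33, _, rfl, rc8, h33⟩,
    ⟨b34, _, rfl, rc8, h34⟩,
    ⟨b35, _, rfl, rc8, h35⟩,
    ⟨b36, _, rfl, rc8, h36⟩,
    ⟨b37, _, rfl, rc8, h37⟩,
    ⟨b38, _, rfl, rc8, h38⟩,
    ⟨b39, _, rfl, rc8, h39⟩⟩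
/-- boxes -/
def L2 : List Bn := [⟨6, 7, 5, 6, 8⟩, ⟨6, 7, 6, 7, 8⟩, ⟨6, 7, 7, 8, 8⟩, ⟨5, 6, 1, 2, 8⟩, ⟨0, 1, 0, 4, 32⟩, ⟨0, 1, 4, 8, 32⟩, ⟨0, 1, 8, 12, 32⟩, ⟨0, 1, 12, 16, 32⟩, ⟨0, 1, 16, 20, 32⟩, ⟨0, 1, 20, 24, 32⟩, ⟨0, 1, 24, 28, 32⟩, ⟨0, 1, 28, 32, 32⟩, ⟨1, 2, 0, 4, 32⟩, ⟨1, 2, 4, 8, 32⟩, ⟨1, 2, 8, 12, 32⟩, ⟨1, 2, 12, 16, 32⟩, ⟨1, 2, 24, 28, 32⟩, ⟨1, 2, 16, 20, 32⟩, ⟨1, 2, 20, 24, 32⟩, ⟨1, 2, 2, 4, 16⟩]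
theorem hL2 : ∀ b ∈ L2, BoxOK 715 10000 81 1000 g false 103180 false b := by
  simp only [L2, List.forall_mem_cons, List.not_mem_nil, false_imp_iff, implies_true, and_true]
  exact ⟨⟨b40, _, rfl, rc8, h40⟩,
    ⟨b41, _, rfl, rc8, h41⟩,
    ⟨b42, _, rfl, rc8, h42⟩,
    ⟨b43, _, rfl, rc8, h43⟩,
    ⟨b44, _, rfl, rc32, h44⟩,
    ⟨b45, _, rfl, rc32, h45⟩,
    ⟨b46, _, rfl, rc32, h46⟩,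
    ⟨b47, _, rfl, rc32, h47⟩,
    ⟨b48, _, rfl, rc32, h48⟩,
    ⟨b49, _, rfl, rc32, h49⟩,
    ⟨b50, _, rfl, rc32, h50⟩,
    ⟨b51, _, rfl, rc32, h51⟩,
    ⟨b52, _, rfl, rc32, h52⟩,
    ⟨b53, _, rfl, rc32, h53⟩,
    ⟨b54, _, rfl, rc32, h54⟩,
    ⟨b55, _, rfl, rc32, h55⟩,
    ⟨b56, _, rfl, rc32, h56⟩,
    ⟨b57, _, rfl, rc32, h57⟩,
    ⟨b58, _, rfl, rc32, h58⟩,
    ⟨b59, _, rfl, rc16, h59⟩⟩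
/-- boxes -/
def L3 : List Bn := [⟨1, 2, 6, 8, 16⟩, ⟨1, 2, 28, 32, 32⟩, ⟨1, 2, 10, 12, 16⟩, ⟨1, 2, 0, 2, 16⟩, ⟨1, 2, 8, 10, 16⟩, ⟨1, 2, 12, 14, 16⟩, ⟨1, 2, 4, 6, 16⟩, ⟨1, 2, 14, 16, 16⟩, ⟨9, 10, 0, 1, 16⟩, ⟨9, 10, 1, 2, 16⟩, ⟨8, 9, 0, 1, 16⟩, ⟨8, 9, 1, 2, 16⟩, ⟨10, 11, 0, 1, 16⟩, ⟨10, 11, 1, 2, 16⟩, ⟨11, 12, 1, 2, 16⟩, ⟨12, 13, 1, 2, 16⟩, ⟨12, 13, 2, 3, 16⟩, ⟨12, 13, 3, 4, 16⟩, ⟨13, 14, 3, 4, 16⟩, ⟨14, 15, 4, 5, 16⟩]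
theorem hL3 : ∀ b ∈ L3, BoxOK 715 10000 81 1000 g false 103180 false b := by
  simp only [L3, List.forall_mem_cons, List.not_mem_nil, false_imp_iff, implies_true, and_true]
  exact ⟨⟨b60, _, rfl, rc16, h60⟩,
    ⟨b61, _, rfl, rc32, h61⟩,
    ⟨b62, _, rfl, rc16, h62⟩,
    ⟨b63, _, rfl, rc16, h63⟩,
    ⟨b64, _, rfl, rc16, h64⟩,
    ⟨b65, _, rfl, rc16, h65⟩,
    ⟨b66, _, rfl, rc16, h66⟩,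
    ⟨b67, _, rfl, rc16, h67⟩,
    ⟨b68, _, rfl, rc16, h68⟩,
    ⟨b69, _, rfl, rc16, h69⟩,
    ⟨b70, _, rfl, rc16, h70⟩,
    ⟨b71, _, rfl, rc16, h71⟩,
    ⟨b72, _, rfl, rc16, h72⟩,
    ⟨b73, _, rfl, rc16, h73⟩,
    ⟨b74, _, rfl, rc16, h74⟩,
    ⟨b75, _, rfl, rc16, h75⟩,
    ⟨b76, _, rfl, rc16, h76⟩,
    ⟨b77, _, rfl, rc16, h77⟩,
    ⟨b78, _, rfl, rc16, h78⟩,
    ⟨b79, _, rfl, rc16, h79⟩⟩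
/-- boxes -/
def L4 : List Bn := [⟨14, 15, 5, 6, 16⟩, ⟨11, 12, 0, 1, 16⟩, ⟨15, 16, 5, 6, 16⟩, ⟨13, 14, 1, 2, 16⟩, ⟨14, 15, 3, 4, 16⟩, ⟨13, 14, 2, 3, 16⟩, ⟨14, 15, 6, 7, 16⟩, ⟨14, 15, 7, 8, 16⟩, ⟨15, 16, 6, 7, 16⟩, ⟨15, 16, 7, 8, 16⟩, ⟨14, 15, 8, 9, 16⟩, ⟨14, 15, 9, 10, 16⟩, ⟨15, 16, 8, 9, 16⟩, ⟨14, 15, 14, 15, 16⟩, ⟨15, 16, 9, 10, 16⟩, ⟨14, 15, 15, 16, 16⟩, ⟨15, 16, 14, 15, 16⟩, ⟨14, 15, 10, 11, 16⟩, ⟨14, 15, 11, 12, 16⟩, ⟨15, 16, 15, 16, 16⟩]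
theorem hL4 : ∀ b ∈ L4, BoxOK 715 10000 81 1000 g false 103180 false b := by
  simp only [L4, List.forall_mem_cons, List.not_mem_nil, false_imp_iff, implies_true, and_true]
  exact ⟨⟨b80, _, rfl, rc16, h80⟩,
    ⟨b81, _, rfl, rc16, h81⟩,
    ⟨b82, _, rfl, rc16, h82⟩,
    ⟨b83, _, rfl, rc16, h83⟩,
    ⟨b84, _, rfl, rc16, h84⟩,
    ⟨b85, _, rfl, rc16, h85⟩,
    ⟨b86, _, rfl, rc16, h86⟩,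
    ⟨b87, _, rfl, rc16, h87⟩,
    ⟨b88, _, rfl, rc16, h88⟩,
    ⟨b89, _, rfl, rc16, h89⟩,
    ⟨b90, _, rfl, rc16, h90⟩,
    ⟨b91, _, rfl, rc16, h91⟩,
    ⟨b92, _, rfl, rc16, h92⟩,
    ⟨b93, _, rfl, rc16, h93⟩,
    ⟨b94, _, rfl, rc16, h94⟩,
    ⟨b95, _, rfl, rc16, h95⟩,
    ⟨b96, _, rfl, rc16, h96⟩,
    ⟨b97, _, rfl, rc16, h97⟩,
    ⟨b98, _, rfl, rc16, h98⟩,
    ⟨b99, _, rfl, rc16, h99⟩⟩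
/-- boxes -/
def L5 : List Bn := [⟨15, 16, 10, 11, 16⟩, ⟨15, 16, 11, 12, 16⟩, ⟨14, 15, 12, 13, 16⟩, ⟨14, 15, 13, 14, 16⟩, ⟨15, 16, 12, 13, 16⟩, ⟨15, 16, 13, 14, 16⟩, ⟨24, 25, 1, 2, 32⟩, ⟨24, 25, 0, 1, 32⟩, ⟨25, 26, 1, 2, 32⟩, ⟨25, 26, 0, 1, 32⟩, ⟨26, 27, 1, 2, 32⟩, ⟨26, 27, 0, 1, 32⟩, ⟨27, 28, 1, 2, 32⟩, ⟨30, 31, 8, 9, 32⟩, ⟨30, 31, 9, 10, 32⟩, ⟨31, 32, 8, 9, 32⟩, ⟨31, 32, 9, 10, 32⟩, ⟨28, 29, 1, 2, 32⟩, ⟨29, 30, 1, 2, 32⟩, ⟨28, 29, 2, 3, 32⟩]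
theorem hL5 : ∀ b ∈ L5, BoxOK 715 10000 81 1000 g false 103180 false b := by
  simp only [L5, List.forall_mem_cons, List.not_mem_nil, false_imp_iff, implies_true, and_true]
  exact ⟨⟨b100, _, rfl, rc16, h100⟩,
    ⟨b101, _, rfl, rc16, h101⟩,
    ⟨b102, _, rfl, rc16, h102⟩,
    ⟨b103, _, rfl, rc16, h103⟩,
    ⟨b104, _, rfl, rc16, h104⟩,
    ⟨b105, _, rfl, rc16, h105⟩,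
    ⟨b106, _, rfl, rc32, h106⟩,
    ⟨b107, _, rfl, rc32, h107⟩,
    ⟨b108, _, rfl, rc32, h108⟩,
    ⟨b109, _, rfl, rc32, h109⟩,
    ⟨b110, _, rfl, rc32, h110⟩,
    ⟨b111, _, rfl, rc32, h111⟩,
    ⟨b112, _, rfl, rc32, h112⟩,
    ⟨b113, _, rfl, rc32, h113⟩,
    ⟨b114, _, rfl, rc32, h114⟩,
    ⟨b115, _, rfl, rc32, h115⟩,
    ⟨b116, _, rfl, rc32, h116⟩,
    ⟨b117, _, rfl, rc32, h117⟩,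
    ⟨b118, _, rfl, rc32, h118⟩,
    ⟨b119, _, rfl, rc32, h119⟩⟩
/-- boxes -/
def L6 : List Bn := [⟨28, 29, 3, 4, 32⟩, ⟨29, 30, 2, 3, 32⟩, ⟨29, 30, 3, 4, 32⟩, ⟨30, 31, 2, 3, 32⟩, ⟨27, 28, 0, 1, 32⟩, ⟨30, 31, 3, 4, 32⟩, ⟨31, 32, 2, 3, 32⟩, ⟨28, 29, 0, 1, 32⟩, ⟨29, 30, 0, 1, 32⟩, ⟨31, 32, 3, 4, 32⟩, ⟨31, 32, 1, 2, 32⟩, ⟨28, 29, 4, 5, 32⟩, ⟨28, 29, 5, 6, 32⟩, ⟨29, 30, 4, 5, 32⟩, ⟨29, 30, 5, 6, 32⟩, ⟨30, 31, 4, 5, 32⟩, ⟨30, 31, 5, 6, 32⟩, ⟨31, 32, 4, 5, 32⟩, ⟨31, 32, 5, 6, 32⟩, ⟨30, 31, 6, 7, 32⟩]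
theorem hL6 : ∀ b ∈ L6, BoxOK 715 10000 81 1000 g false 103180 false b := by
  simp only [L6, List.forall_mem_cons, List.not_mem_nil, false_imp_iff, implies_true, and_true]
  exact ⟨⟨b120, _, rfl, rc32, h120⟩,
    ⟨b121, _, rfl, rc32, h121⟩,
    ⟨b122, _, rfl, rc32, h122⟩,
    ⟨b123, _, rfl, rc32, h123⟩,
    ⟨b124, _, rfl, rc32, h124⟩,
    ⟨b125, _, rfl, rc32, h125⟩,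
    ⟨b126, _, rfl, rc32, h126⟩,
    ⟨b127, _, rfl, rc32, h127⟩,
    ⟨b128, _, rfl, rc32, h128⟩,
    ⟨b129, _, rfl, rc32, h129⟩,
    ⟨b130, _, rfl, rc32, h130⟩,
    ⟨b131, _, rfl, rc32, h131⟩,
    ⟨b132, _, rfl, rc32, h132⟩,
    ⟨b133, _, rfl, rc32, h133⟩,
    ⟨b134, _, rfl, rc32, h134⟩,
    ⟨b135, _, rfl, rc32, h135⟩,
    ⟨b136, _, rfl, rc32, h136⟩,
    ⟨b137, _, rfl, rc32, h137⟩,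
    ⟨b138, _, rfl, rc32, h138⟩,
    ⟨b139, _, rfl, rc32, h139⟩⟩
/-- boxes -/
def L7 : List Bn := [⟨30, 31, 7, 8, 32⟩, ⟨31, 32, 7, 8, 32⟩, ⟨31, 32, 6, 7, 32⟩, ⟨30, 31, 0, 1, 32⟩, ⟨60, 61, 3, 4, 64⟩, ⟨61, 62, 2, 3, 64⟩, ⟨61, 62, 3, 4, 64⟩, ⟨60, 61, 2, 3, 64⟩, ⟨63, 64, 0, 1, 64⟩, ⟨62, 63, 0, 1, 64⟩, ⟨62, 63, 1, 2, 64⟩, ⟨63, 64, 1, 2, 64⟩]
theorem hL7 : ∀ b ∈ L7, BoxOK 715 10000 81 1000 g false 103180 false b := by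
  simp only [L7, List.forall_mem_cons, List.not_mem_nil, false_imp_iff, implies_true, and_true]
  exact ⟨⟨b140, _, rfl, rc32, h140⟩,
    ⟨b141, _, rfl, rc32, h141⟩,
    ⟨b142, _, rfl, rc32, h142⟩,
    ⟨b143, _, rfl, rc32, h143⟩,
    ⟨b144, _, rfl, rc64, h144⟩,
    ⟨b145, _, rfl, rc64, h145⟩,
    ⟨b146, _, rfl, rc64, h146⟩,
    ⟨b147, _, rfl, rc64, h147⟩,
    ⟨b148, _, rfl, rc64, h148⟩,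
    ⟨b149, _, rfl, rc64, h149⟩,
    ⟨b150, _, rfl, rc64, h150⟩,
    ⟨b151, _, rfl, rc64, h151⟩⟩
/-- intervals -/
def LS : List Bn := [⟨0, 1, 0, 0, 16⟩, ⟨1, 2, 0, 0, 16⟩, ⟨2, 3, 0, 0, 16⟩, ⟨3, 4, 0, 0, 16⟩, ⟨4, 5, 0, 0, 16⟩, ⟨5, 6, 0, 0, 16⟩, ⟨6, 7, 0, 0, 16⟩, ⟨7, 8, 0, 0, 16⟩, ⟨8, 9, 0, 0, 16⟩, ⟨9, 10, 0, 0, 16⟩, ⟨10, 11, 0, 0, 16⟩, ⟨11, 12, 0, 0, 16⟩, ⟨12, 13, 0, 0, 16⟩, ⟨13, 14, 0, 0, 16⟩, ⟨14, 15, 0, 0, 16⟩, ⟨15, 16, 0, 0, 16⟩]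
theorem hLS : ∀ b ∈ LS, SideOK 715 10000 81 1000 g F b := by
  simp only [LS, List.forall_mem_cons, List.not_mem_nil, false_imp_iff, implies_true, and_true]
  exact ⟨⟨s0, 7, rfl, t0⟩,
    ⟨s1, 7, rfl, t1⟩,
    ⟨s2, 7, rfl, t2⟩,
    ⟨s3, 7, rfl, t3⟩,
    ⟨s4, 7, rfl, t4⟩,
    ⟨s5, 7, rfl, t5⟩,
    ⟨s6, 7, rfl, t6⟩,
    ⟨s7, 7, rfl, t7⟩,
    ⟨s8, 7, rfl, t8⟩,
    ⟨s9, 7, rfl, t9⟩,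
    ⟨s10, 7, rfl, t10⟩,
    ⟨s11, 7, rfl, t11⟩,
    ⟨s12, 7, rfl, t12⟩,
    ⟨s13, 7, rfl, t13⟩,
    ⟨s14, 7, rfl, t14⟩,
    ⟨s15, 7, rfl, t15⟩⟩
theorem chS : chn 0 1 LS = true := by decide +kernel
/-- all boxes -/
def L : List Bn := L0 ++ L1 ++ L2 ++ L3 ++ L4 ++ L5 ++ L6 ++ L7
theorem hL : ∀ b ∈ L, BoxOK 715 10000 81 1000 g false 103180 false b := by
  intro b hb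
  simp only [L, List.mem_append] at hb
  rcases hb with (((((((h | h) | h) | h) | h) | h) | h) | h)
  · exact hL0 b h
  · exact hL1 b h
  · exact hL2 b h
  · exact hL3 b h
  · exact hL4 b h
  · exact hL5 b h
  · exact hL6 b h
  · exact hL7 b h
theorem hq : ∀ b ∈ L, 0 < b.q := by
  have h : (L.all fun b => Nat.ble 1 b.q) = true := by decide +kernel
  intro b hb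
  exact Nat.le_of_ble_eq_true (List.all_eq_true.mp h b hb)
theorem hc : covQ 64 L 14 0 64 0 64 = true := by decide +kernel
/-- the certificate of the triangle -/
theorem cert {T : E → ℝ} {β : ℝ} (h : TrHyp T β) (hβ : inR (rgOf 715 10000 81 1000) β) :
    sF0 (FFd F) T + sF1 (FFd F) T + sF2 (FFd F) T + 24000 * payOf false 103180 / (√2 * g.D) ≤ CN T :=
  tri_cert3 ⟨by norm_num [rgOf], by norm_num [rgOf], by norm_num [rgOf]⟩ hg 64 14 (by norm_num) L hq hc hL F (by norm_num [F]) ev tx ty LS chS hLS h hβ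
end Pool.Agent.MTC.B2b
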